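import Pool.Agent.H68.EPP.Sl

/-!
ROW B5 (section 3, (B5')).  PROOF.  Z := dbl Y.  First reduce to the space `Ω4 = cprod (cprod Y.m Y.J) (J, Y1+Y2)` (two conditionally independent copies of a
point of Z.Om given its label) times X.Om: by the slice formulas
 (a) ∑ w, Z.m w * H (add X (sl Z w)) = H (add X Z) = H(X + Y1 | J_X, J, S),  S = Y1 + Y2;
 (b) ∑ w, Z.m w * H (add X (add (sl Z w) (sl Z w))) = H(X + Y1 + Y1~ | J_X, J, S) ≤ H(X + t | J_X, J),  t = Y1 + Y1~.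
 Entropies given (J_X, J) (all below):  X~ = X + t, Z_i = X + Y_i, Y2~ = S + Y1~.
 X~ + Z_1 = Y1~, so H(X~, Z_1) = H(Y1~, Z_1) ≤ H(Y) + H(X+Y);  X~ + Z_2 = Y2~ (char 2): H(X~, Z_2) ≤ H(Y) + H(X+Y)  [(Y1~,Y2~) has the law of (Y1,Y2)].
 (X~, Z_1, Z_2) ~ (S, Z_1, Y1~): H = H(S) + H(Z_1 | S) + H(Y1~ | S) = 2 H(Y) + H(X + Y1 | S)   [given S: Z_1 = X + Y1 and Y1~ independent; H(S) + H(Y1|S) = H(Y1,Y2) = 2 H(Y)].
 Submodularity: H(X~,Z1,Z2) + H(X~) ≤ H(X~,Z1) + H(X~,Z2)  =>  H(X + Y1 | S) + H(X + t) ≤ 2 H(X + Y).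
`H_dbl`: H Z = H(Y1 | S, J) = 2 H(Y) - H(Y1 + Y2 | J) and Y1 + Y2 lies in a coset of V determined by J (a fixed element of 2X in V): H(Y1+Y2|J) ≤ ls V.
-/

set_option autoImplicit false

namespace Epp

open H2INV F2 Finset

noncomputable section

variable {E : Type} [AddCommGroup E] [Finite E] [Two E]

theorem in_dbl {Y : Fam E} {V : AddSubgroup E} (h : In Y V) : In (dbl Y) V := sorry

theorem H_dbl {Y : Fam E} {V : AddSubgroup E} (h : In Y V) : 2 * H Y - ls V ≤ H (dbl Y) := sorry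

theorem b5 (X Y : Fam E) :
    ∑ w, (dbl Y).m w * (H (add X (sl (dbl Y) w)) + H (add X (add (sl (dbl Y) w) (sl (dbl Y) w))))
      ≤ 2 * H (add X Y) := sorry

end

end Epp
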