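import Pool.Agent.H68.EPP.Pfr

/-!
ROW Ph1 (section 2).  PROOF of `hh_fold`: `hh (fold U U) W = H(X mod W | X + X', J, J') + ls W` and
 `H(X mod W, X + X' | J, J') = H(X mod W, X' mod W, X + X' | J, J') = 2 (hh U W - ls W) + H (add (rs U W) (rs U W))`.
`closure`: threshold for U in W at 2c (`threshold U W (2c)` gives W' ≤ W with 2c (ls W - ls W') ≤ hh U W - hh U W' and Spr (rs U W') W' (2c));
   ls V - hh U W' ≤ c (ls V - ls W') (Spr), ls V - hh U W ≥ 0 so 2c (ls W - ls W') ≤ ls V - hh U W' ≤ c (ls V - ls W'), hence ls V - ls W' ≤ 2 (ls V - ls W) and ls V - hh U W' ≤ 2c (ls V - ls W).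
   hh (fold U U) W' ≤ hh (fold U U) W (hh_mono);  hh_fold for W' and SB (2c) b for rs U W' in W': ls W' - H(add (rs U W') (rs U W')) ≤ b (ls W' - H (rs U W')) ≤ b (ls V - H U)
   (ls W' - H (rs U W') = hh U W' - H U ≤ ls V - H U by H_rs, hh_le..).  Sum.
`step1`: δ := b D - D2 ≥ 0 (SB (8c) b applied to U itself).  F = fold U U, A = add F F.
   (i) closure (SB (2c) b by monotonicity): ls V - hh F W ≤ 4c (ls V - ls W) + δ for all W ≤ V.
   (ii) threshold F V (8c) gives W: 8c (ls V - ls W) ≤ ls V - hh F W (hh_self) ≤ 4c (ls V - ls W) + δ, so ls V - hh F W ≤ 2 δ; SB (8c) b for rs F W in W;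
        ls V - H A ≤ (ls V - hh F W) + (ls W - H (add (rs F W) (rs F W))) ≤ 2δ + b (ls V - H F)   [H A ≥ hh A W - ls W + H (rs A W), hh A W ≥ hh F W, finer_add_rs_rs, H_rs].
   (iii) H F = 2 H U - H (add U U), so ls V - H F = 2D - D2.  D4 := ls V - H (add (add U U) (add U U)) ≤ b D2 (SB (8c) b for add U U).
   (iv) fsd (L10): SD A + 2 H A ≤ 3 (2 H (add U U) - H (add (add U U) (add U U))); with H A ≤ SD A: D4 ≥ 2 D2 - (ls V - H A); I := 2 H2 - H4 - H A ≤ 4 δ, SD A - H A ≤ 3 I ≤ 12 δ.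
   (v) pfrs_sd with B = A, U = A, s = 4c, e = δ (hh A W ≥ hh F W): ls V - H (add A A) ≤ 4c (ls V - H A) + 73 δ ≤ 8 c D + 73 δ.
   (vi) H (add A A) ≤ H (add (add U U) (add U U)) (A is finer than add U U), so D4 ≤ 8 c D + 73 δ; D D4 ≥ D2^2 - 4 δ D.
`phase1`: if SB (8c) b, 0 ≤ b ≤ 1, 0 < η ≤ 1, c ≤ η^2/16 then SB c (max η (b - η^2/154)); iterate from SB (8c) 1 (H_add ≥ H) down.
-/

set_option autoImplicit false

namespace Epp

open H2INV F2 Finset

noncomputable section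

theorem SB.mono {c c' b b' : ℝ} (h : SB c b) (hc : c' ≤ c) (hb : b ≤ b') : SB c' b' := sorry

theorem SB_one (c : ℝ) : SB c 1 := sorry

section

variable {E : Type} [AddCommGroup E] [Finite E]

theorem hh_fold (U : Fam E) (W : AddSubgroup E) :
    hh (fold U U) W + H (add U U) = 2 * hh U W - ls W + H (add (rs U W) (rs U W)) := sorry

variable [Two E]

/-- L10 of the design -/
theorem fsd (U : Fam E) : SD (add (fold U U) (fold U U)) + 2 * H (add (fold U U) (fold U U))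
    ≤ 3 * (2 * H (add U U) - H (add (add U U) (add U U))) := sorry

theorem closure {c b : ℝ} (hc : 0 < c) (hb0 : 0 ≤ b) (hb : SB (2 * c) b) (V : AddSubgroup E) (U : Fam E)
    (hU : In U V) (hs : Spr U V c) (W : AddSubgroup E) (hW : W ≤ V) :
    ls V - hh (fold U U) W ≤ 4 * c * (ls V - ls W) + (b * (ls V - H U) - (ls V - H (add U U))) := sorry

theorem step1 {c b : ℝ} (hc : 0 < c) (hc4 : c ≤ 1 / 4) (hb0 : 0 ≤ b) (hb1 : b ≤ 1) (hb : SB (8 * c) b)
    (V : AddSubgroup E) (U : Fam E) (hU : In U V) (hs : Spr U V c) :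
    (ls V - H (add U U)) ^ 2 ≤ 8 * c * (ls V - H U) ^ 2 +
      77 * (b * (ls V - H U) - (ls V - H (add U U))) * (ls V - H U) := sorry

end

theorem phase1 {η : ℝ} (hη : 0 < η) : ∃ c : ℝ, 0 < c ∧ SB c η := sorry

end

end Epp
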