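import Pool.Agent.H68.EPP.CN
import Pool.Agent.H68.EPP.Ph1

/-!
ROW Boot (section 6.3, algebraic version).  A ≥ 1, LB z (A sqrt z) (z > 0), LB z 1, LB 0 0.  B := 5 A / 2 (≥ A/(sqrt 2 - 1)), z1 := 4/(9 B^2) ≤ 1, C := 3/z1,
 Psi z := C (z~ - B z~^(3/2)), z~ = min z z1.  Psi nondecreasing, Psi z1 = 1, Psi z ≤ C z.
 CLAIM: (∀ z in [0,1], LB z (Psi (2z) + ε)) → (∀ z in [0,1], LB z (Psi (2z) + r ε)), r = 2/3.
   l z := min (min 1 (A sqrt z)) (Psi (2z) + ε) (nondecreasing, LB z (l z)).  For all z in [0,1]: (l z + l z^2)/2 ≤ Psi z + r ε: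
     z ≤ z1/2: l (1+l)/2 ≤ (Psi(2z) + ε)(1 + A sqrt z)/2, A sqrt z1 = 2A/(3B) = 4/15, and Psi(2z)(1 + A sqrt z)/2 ≤ Psi z:
        C (z - B sqrt2 z^(3/2))(1 + A sqrt z) ≤ C (z - B z^(3/2)) iff A sqrt z z ≤ (sqrt 2 - 1) B z^(3/2) + (..≥0): B (sqrt 2 - 1) ≥ A.
     z1/2 ≤ z ≤ z1: l (1+l)/2 ≤ (1 + 4/15)/2 = .634 ≤ Psi(z1/2) = (3/2)(1 - (2/3)/sqrt 2) = .79.      z ≥ z1: l ≤ 1 = Psi z1.
   For y: tangent of Psi at p = min (2y) z1: slope lam = C (1 - (3/2) B sqrt p) ≥ 0, a = Psi p - lam p + r ε ≥ 0: Psi z ≤ Psi p + lam (z - p) for all z ≥ 0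
     [z = t^2, p = v^2: t^3 - (3/2) v t^2 + v^3/2 = (t - v)^2 (t + v/2) ≥ 0; z > z1: Psi z = Psi z1 and slope ≥ 0].  stepIII: LB y (a + 2 lam y) and a + 2 lam y = Psi (2y) + rε if 2y ≤ z1;
     if 2y > z1: p = z1, lam = 0.
 Iterate from ε = 1 (LB z 1), let k → ∞ (LB is closed: le_of_forall_pos_le_add / limit): LB z (Psi (2z)), so LB z (2 C z) for z in [0,1]; for z > 1: LB z 1 and 2C ≥ 1.
`epp`: phase1 (1/16), cm, claimN, boot.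
-/

set_option autoImplicit false

namespace Epp

open H2INV F2 Finset

noncomputable section

theorem LB.mono {y k k' : ℝ} (h : LB y k) (hk : k ≤ k') : LB y k' := sorry

theorem LB_one (y : ℝ) : LB y 1 := sorry

theorem LB_zero : LB 0 0 := sorry

theorem LB.min {y k k' : ℝ} (h : LB y k) (h' : LB y k') : LB y (min k k') := sorry

theorem LB.closed {y k : ℝ} (h : ∀ e : ℝ, 0 < e → LB y (k + e)) : LB y k := sorry

theorem boot {A : ℝ} (hA : 1 ≤ A) (h : ∀ z, 0 < z → LB z (A * Real.sqrt z)) :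
    ∃ C : ℝ, 1 ≤ C ∧ ∀ z, 0 ≤ z → LB z (C * z) := sorry

/-- (E'') -/
theorem epp : ∃ C : ℝ, 1 ≤ C ∧ ∀ z, 0 ≤ z → LB z (C * z) := sorry

end

end Epp
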