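import Pool.Agent.H68.EPP.B5

/-!
ROW CM (section 4, Claim M), constant subgroup form.
`qm_base`: ls V - H (add X Y) ≤ (ls V - hh X W) + (ls W - H Y):  H(X+Y|labels) ≥ hh (add X Y) W - ls W + H (rs (add X Y) W) ≥ (hh X W - ls W) + H(add (rs X W) (rs Y W)) ≥ hh X W - ls W + H (rs Y W),
   and H (rs Y W) = H Y as Y lives in W (H_rs, hh_self).  Then Spr X V s; ls W - H Y ≤ ls V gives ls W - H Y ≤ sqrt (ls V (ls W - H Y)).
`qm_step`: D := ls W - H Y.  D = 0: qm_base.  D > 0: for w in (dbl Y).Om put Z_w := sl (dbl Y) w (lives in W), W' := W'_w from `threshold Z_w W c`, R := rs Z_w W'.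
   QM for (W', R) and (W', add R R), SB c (1/16) for R: ls W' - H (add R R) ≤ (ls W' - H R)/16;  H(add X Z_w) ≥ H (add X R), H(add X (add Z_w Z_w)) ≥ H(add X (add R R)) (Finer);
   so with σ = hh Z_w W - hh Z_w W' = ls W - hh Z_w W' (hh_self), t = ls W - H Z_w, ls W' - H R = t - σ (H_rs), ls W - ls W' ≤ σ / c:
   (1/2)((ls V - H(add X Z_w))/s + (ls V - H(add X (add Z_w Z_w)))/s) - (ls V - ls W) ≤ σ/c + (5/8) M sqrt(ls V (t - σ)).
   `sqrt (n x) ≤ sqrt (2 n D) (1/2) (1 + x/(2D))`; coefficient of σ is ≤ 0 since M ≥ 5/c and D ≤ n.  Average over w with weights (dbl Y).m w (b5; ∑ m w t_w = ls W - H (dbl Y) ≤ 2D by sum_sl, H_dbl):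
   ≤ (5/8) sqrt 2 M sqrt(n D) ≤ 0.9 M sqrt (n D).
`cm`: iterate qm_step from M = 1/s: QM (max (5/c) (0.9^k / s)) for all k; take k large; W = V.
-/

set_option autoImplicit false

namespace Epp

open H2INV F2 Finset

noncomputable section

variable {E : Type} [AddCommGroup E] [Finite E] [Two E]

/-- the inductive statement -/
def QM (V : AddSubgroup E) (X : Fam E) (s M : ℝ) : Prop :=
  ∀ W : AddSubgroup E, W ≤ V → ∀ Y : Fam E, In Y W →
    (ls V - H (add X Y)) / s - (ls V - ls W) ≤ M * Real.sqrt (ls V * (ls W - H Y))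

theorem qm_base {V : AddSubgroup E} {X : Fam E} {s : ℝ} (hs : 0 < s) (hX : Spr X V s) :
    QM V X s (1 / s) := sorry

theorem qm_step {V : AddSubgroup E} {X : Fam E} {s c M : ℝ} (hs : 0 < s) (hc : 0 < c)
    (hSB : SB c (1 / 16)) (hX : Spr X V s) (hM : 5 / c ≤ M) (h : QM V X s M) :
    QM V X s (9 / 10 * M) := sorry

omit [Two E] in
theorem QM.mono {V : AddSubgroup E} {X : Fam E} {s M M' : ℝ} (h : QM V X s M) (hM : M ≤ M') :
    QM V X s M' := sorry

theorem cm {c : ℝ} (hc : 0 < c) (hSB : SB c (1 / 16)) : CM (5 / c) := sorry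

end

end Epp
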