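import Pool.Agent.H68.EPP.HN
import Pool.Agent.H68.EPP.CM

/-!
ROW CN (sections 5, 6.1, 6.2).
`claimN`: HN flag of X (W i, x i); flag; on block i: if x i = 0: the term is ≤ ls (bv) - H (bk X) = hh X (W i) - hh X (W (i+1)) = 0; otherwise CM A with spr_bk:
   term ≤ A x_i sqrt(d_i D(Y^i)) ≤ (A/2) x_i (sqrt y d_i + D(Y^i)/sqrt y), d_i = ls (W i) - ls (W (i+1)), D(Y^i) = hh Y (W i) - hh Y (W (i+1)) (H_bk, ls_bv).
   abel with a = D(Y^i), b = y d_i (partial sums: flg_sum, ls V - hh Y (W j) ≤ y (ls V - ls (W j)), hh_self): ∑ x_i D(Y^i) ≤ y ∑ x_i d_i = y (ls V - H X).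
`semi`: b5; for each w: HN flag of Z_w = sl (dbl Y) w (lives in V): slopes z_i in [0,1].  flag X Z_w: term_i ≤ l(z_i) D(X^i)  (LB (z_i) (l z_i), spr_bk);
   flag3 X Z_w Z_w: term_i ≤ l(z_i) (ls - H (add (bk X) (bk Z))) ≤ l(z_i)^2 D(X^i).  Half the sum ≤ ∑ h(z_i) D(X^i), h = (l + l^2)/2 nondecreasing;
   abel (x := h(z_i), a := D(X^i), b := x d_i): ≤ x ∑ h(z_i) d_i ≤ x ∑ (a + lam z_i) d_i = x (a ls V + lam (ls V - H Z_w)).  Average: sum_sl, H_dbl.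
`stepIII`: HN flag of X, flag, `semi` on the blocks: ≤ ∑ x_i (a d_i + 2 lam D(Y^i)), abel as in claimN.
-/

set_option autoImplicit false

namespace Epp

open H2INV F2 Finset

noncomputable section

theorem claimN {A : ℝ} (hA : 0 ≤ A) (h : CM A) {y : ℝ} (hy : 0 < y) : LB y (A * Real.sqrt y) := sorry

theorem semi {l : ℝ → ℝ} (hl0 : ∀ z, 0 ≤ z → z ≤ 1 → 0 ≤ l z)
    (hl : ∀ u v, 0 ≤ u → u ≤ v → v ≤ 1 → l u ≤ l v) (hLB : ∀ z, 0 ≤ z → z ≤ 1 → LB z (l z))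
    {a lam : ℝ} (ha : 0 ≤ a) (hlam : 0 ≤ lam)
    (hm : ∀ z, 0 ≤ z → z ≤ 1 → (l z + l z ^ 2) / 2 ≤ a + lam * z)
    {E : Type} [AddCommGroup E] [Finite E] [Two E] (V : AddSubgroup E) (X Y : Fam E)
    (hX : In X V) (hY : In Y V) {x : ℝ} (hx : 0 ≤ x) (hs : Spr X V x) :
    ls V - H (add X Y) ≤ x * (a * ls V + 2 * lam * (ls V - H Y)) := sorry

theorem stepIII {l : ℝ → ℝ} (hl0 : ∀ z, 0 ≤ z → z ≤ 1 → 0 ≤ l z)
    (hl : ∀ u v, 0 ≤ u → u ≤ v → v ≤ 1 → l u ≤ l v) (hLB : ∀ z, 0 ≤ z → z ≤ 1 → LB z (l z))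
    {a lam : ℝ} (ha : 0 ≤ a) (hlam : 0 ≤ lam)
    (hm : ∀ z, 0 ≤ z → z ≤ 1 → (l z + l z ^ 2) / 2 ≤ a + lam * z) {y : ℝ} (hy : 0 ≤ y) :
    LB y (a + 2 * lam * y) := sorry

end

end Epp
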