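import Pool.Agent.H68.EPP.Quo

/-!
ROW HN.  `hn`: strong induction on Nat.card V.  If V = ⊥: m = 0.  Otherwise among all K < V take one that maximises the slope
 (hh X V - hh X K)/(ls V - ls K) =: x (finitely many subgroups, ls K < ls V), and among the maximisers ... (any maximiser works: if K' < K then
 hh X V - hh X K' ≤ x (ls V - ls K') and equality for K give hh X K - hh X K' ≤ x (ls K - ls K'), so the next slopes are ≤ x).  Recurse on K.
 NOTE the family X itself is kept (only hh X matters).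
`abel`: Abel summation (Finset.sum_range_by_parts or induction on m: more general statement with x (m-1) ≥ 0).
`flag`/`flag3`: telescoping sum of flag_step / flag_step3 (hh_self, hh_bot).
-/

set_option autoImplicit false

namespace Epp

open H2INV F2 Finset

noncomputable section

theorem abel (m : ℕ) (x a b : ℕ → ℝ) (hx0 : ∀ i, i < m → 0 ≤ x i)
    (hx : ∀ i j, i ≤ j → j < m → x j ≤ x i)
    (h : ∀ j, j ≤ m → ∑ i ∈ range j, a i ≤ ∑ i ∈ range j, b i) :
    ∑ i ∈ range m, x i * a i ≤ ∑ i ∈ range m, x i * b i := sorry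

variable {E : Type} [AddCommGroup E] [Finite E]

/-- a flag of subgroups from `V` down to `⊥` -/
structure Flg (V : AddSubgroup E) (m : ℕ) (W : ℕ → AddSubgroup E) : Prop where
  zero : W 0 = V
  last : W m = ⊥
  anti : ∀ i, i < m → W (i + 1) ≤ W i

/-- Harder-Narasimhan flag -/
theorem hn (V : AddSubgroup E) (X : Fam E) : ∃ (m : ℕ) (W : ℕ → AddSubgroup E) (x : ℕ → ℝ),
    Flg V m W ∧ (∀ i, i < m → 0 ≤ x i ∧ x i ≤ 1) ∧ (∀ i j, i ≤ j → j < m → x j ≤ x i) ∧
    (∀ i, i < m → hh X (W i) - hh X (W (i + 1)) = x i * (ls (W i) - ls (W (i + 1)))) ∧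
    (∀ i, i < m → ∀ K : AddSubgroup E, K ≤ W i → hh X (W i) - hh X K ≤ x i * (ls (W i) - ls K)) := sorry

theorem flag {V : AddSubgroup E} {m : ℕ} {W : ℕ → AddSubgroup E} (hW : Flg V m W) (X Y : Fam E)
    (hX : In X V) (hY : In Y V) :
    ls V - H (add X Y) ≤ ∑ i ∈ range m, (ls (bv (W i) (W (i + 1))) -
      H (add (bk X (W i) (W (i + 1))) (bk Y (W i) (W (i + 1))))) := sorry

theorem flag3 {V : AddSubgroup E} {m : ℕ} {W : ℕ → AddSubgroup E} (hW : Flg V m W) (X Y Z : Fam E)
    (hX : In X V) (hY : In Y V) (hZ : In Z V) :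
    ls V - H (add X (add Y Z)) ≤ ∑ i ∈ range m, (ls (bv (W i) (W (i + 1))) -
      H (add (add (bk X (W i) (W (i + 1))) (bk Y (W i) (W (i + 1)))) (bk Z (W i) (W (i + 1))))) := sorry

/-- partial sums along a flag -/
theorem flg_sum {V : AddSubgroup E} {m : ℕ} {W : ℕ → AddSubgroup E} (hW : Flg V m W) (f : AddSubgroup E → ℝ)
    (j : ℕ) : ∑ i ∈ range j, (f (W i) - f (W (i + 1))) = f V - f (W j) := sorry

end

end Epp
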