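import Pool.Agent.H68.EPP.Sl

/-!
BLOCK P (PFR*), section 1 of H68_Epp.md in single family form.  (helper69: adapt the H69/PFR skeleton.)
tau(U) = 6 k(U) + s (ls V - H U) - (ls V - H (add B U)), k(U) = H (add U U) - H U, over all families U in V.
-/

set_option autoImplicit false

namespace Epp

open H2INV F2 Finset

noncomputable section

variable {E : Type} [AddCommGroup E] [Finite E] [Two E]

/-- PFR* -/
theorem pfrs (V : AddSubgroup E) (B : Fam E) (hB : In B V) {s e : ℝ} (hs0 : 0 ≤ s) (hs1 : s ≤ 1) (he : 0 ≤ e)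
    (h : ∀ W : AddSubgroup E, W ≤ V → ls V - hh B W ≤ s * (ls V - ls W) + e)
    (U : Fam E) (hU : In U V) :
    ls V - H (add B U) ≤ s * (ls V - H U) + 6 * (H (add U U) - H U) + e := sorry

/-- PFR* with the same label in the doubling. PROOF: apply `pfrs` to the slices `sl U w` and average (sum_sl, sum_sl_add, SD). -/
theorem pfrs_sd (V : AddSubgroup E) (B : Fam E) (hB : In B V) {s e : ℝ} (hs0 : 0 ≤ s) (hs1 : s ≤ 1) (he : 0 ≤ e)
    (h : ∀ W : AddSubgroup E, W ≤ V → ls V - hh B W ≤ s * (ls V - ls W) + e)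
    (U : Fam E) (hU : In U V) :
    ls V - H (add B U) ≤ s * (ls V - H U) + 6 * (SD U - H U) + e := sorry

end

end Epp
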