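import Pool.Agent.H68.EPP.Sl

/-!
ROW Quo: blocks.  K ≤ V.  bk U V K = quo (rs U V) K lives in bv V K = V/K.
 `ls_bv`: |V/K| = |V|/|K|.  `H_bk`: H (quo U K) = hh U K - ls K by definition, and hh_rs.
 `hh_quo`: for K ≤ W: q (W.map mk') (q K x) has the same kernel as q W x.  `spr_bk`: every subgroup of V/K is bv W K with K ≤ W ≤ V (W = comap).
 `flag_step`: H(add X Y mod K | labels) = H (.. mod V) + H(.. mod K | .. mod V), more labels.
-/

set_option autoImplicit false

namespace Epp

open H2INV F2 Finset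

noncomputable section

variable {E : Type} [AddCommGroup E] [Finite E]

theorem ls_bv {V K : AddSubgroup E} (h : K ≤ V) : ls (bv V K) = ls V - ls K := sorry

theorem in_bk (U : Fam E) (V K : AddSubgroup E) : In (bk U V K) (bv V K) := sorry

theorem H_bk (U : Fam E) {V K : AddSubgroup E} (h : K ≤ V) :
    H (bk U V K) = hh U K - hh U V + ls V - ls K := sorry

theorem hh_bk (U : Fam E) {V K W : AddSubgroup E} (hKW : K ≤ W) (hWV : W ≤ V) :
    hh (bk U V K) (bv W K) = hh U W - hh U V + ls V - ls K := sorry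

theorem spr_bk (U : Fam E) {V K : AddSubgroup E} (h : K ≤ V) {x : ℝ}
    (hx : ∀ W : AddSubgroup E, K ≤ W → W ≤ V → hh U V - hh U W ≤ x * (ls V - ls W)) :
    Spr (bk U V K) (bv V K) x := sorry

/-- two step flag rule -/
theorem flag_step (X Y : Fam E) {V K : AddSubgroup E} (h : K ≤ V) :
    hh (add X Y) V - hh (add X Y) K ≤ ls (bv V K) - H (add (bk X V K) (bk Y V K)) := sorry

theorem flag_step3 (X Y Z : Fam E) {V K : AddSubgroup E} (h : K ≤ V) :
    hh (add X (add Y Z)) V - hh (add X (add Y Z)) K ≤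
      ls (bv V K) - H (add (add (bk X V K) (bk Y V K)) (bk Z V K)) := sorry

end

end Epp
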