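import Pool.Agent.H68.EPP.St

/-!
ROW Sl (helper9's L1-L8 cover most of this; if a lemma exists in Pool/Agent/H9/F2/L1 or L2 just quote it).
Elementary facts on families.  Proofs: everything is a linear combination of ent_submod, ent_mono, ent_congr, ent_prod,
cent_eq_avg (Ent3) for functions on product spaces.
-/

set_option autoImplicit false

namespace Epp

open H2INV F2 Finset

noncomputable section

variable {E : Type} [AddCommGroup E]

/-! ### trivial bounds -/

theorem H_nonneg (U : Fam E) : 0 ≤ H U := sorry

theorem H_le_ls [Finite E] {U : Fam E} {V : AddSubgroup E} (h : In U V) : H U ≤ ls V := sorry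

theorem hh_bot [Finite E] (U : Fam E) : hh U ⊥ = H U := sorry

/-- in `V` the class modulo `V` carries no information -/
theorem hh_self [Finite E] {U : Fam E} {V : AddSubgroup E} (h : In U V) : hh U V = ls V := sorry

/-- `hh` is monotone -/
theorem hh_mono [Finite E] (U : Fam E) {K W : AddSubgroup E} (h : K ≤ W) : hh U K ≤ hh U W := sorry

/-- and at most `ls` increments -/
theorem hh_le_add [Finite E] (U : Fam E) {K W : AddSubgroup E} (h : K ≤ W) :
    hh U W ≤ hh U K + (ls W - ls K) := sorry

theorem ls_mono [Finite E] {K W : AddSubgroup E} (h : K ≤ W) : ls K ≤ ls W := sorry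

theorem ls_lt [Finite E] {K W : AddSubgroup E} (h : K < W) : ls K < ls W := sorry

theorem ls_bot : ls (⊥ : AddSubgroup E) = 0 := sorry

/-! ### sums -/

/-- adding an independent variable increases `hh` -/
theorem hh_add_left [Finite E] (U W : Fam E) (K : AddSubgroup E) : hh W K ≤ hh (add U W) K := sorry

theorem hh_add_right [Finite E] (U W : Fam E) (K : AddSubgroup E) : hh U K ≤ hh (add U W) K := sorry

theorem H_add_left (U W : Fam E) : H W ≤ H (add U W) := sorry

theorem H_add_right (U W : Fam E) : H U ≤ H (add U W) := sorry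

theorem H_add_comm (U W : Fam E) : H (add U W) = H (add W U) := sorry

theorem H_add_assoc (U W Z : Fam E) : H (add (add U W) Z) = H (add U (add W Z)) := sorry

/-- Kaimanovich-Vershik -/
theorem kv (U W Z : Fam E) : H (add U (add W Z)) + H W ≤ H (add U W) + H (add W Z) := sorry

/-- `W'` has the variable of `W` and a finer label -/
def Finer (W' W : Fam E) : Prop :=
  ∃ φ : W'.Om → W.Om, MP W'.m φ W.m ∧ (∀ w, 0 < W'.m w → W'.X w = W.X (φ w)) ∧
    ∀ v w, W'.J v = W'.J w → W.J (φ v) = W.J (φ w)

theorem H_finer {W' W : Fam E} (h : Finer W' W) : H W' ≤ H W := sorry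

theorem hh_finer [Finite E] {W' W : Fam E} (h : Finer W' W) (K : AddSubgroup E) : hh W' K ≤ hh W K := sorry

theorem Finer.refl (W : Fam E) : Finer W W := sorry

theorem Finer.add {W' W Z' Z : Fam E} (h : Finer W' W) (h' : Finer Z' Z) :
    Finer (add W' Z') (add W Z) := sorry

theorem finer_rs (U : Fam E) (V : AddSubgroup E) : Finer (rs U V) U := sorry

theorem finer_fold (U W : Fam E) : Finer (fold U W) U := sorry

/-! ### subgroup bookkeeping -/

theorem In.mono {U : Fam E} {V W : AddSubgroup E} (h : In U V) (hVW : V ≤ W) : In U W := sorry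

theorem in_add {U W : Fam E} {V : AddSubgroup E} (hU : In U V) (hW : In W V) : In (add U W) V := sorry

theorem in_fold {U W : Fam E} {V : AddSubgroup E} (hU : In U V) (hW : In W V) : In (fold U W) V := sorry

theorem in_rs (U : Fam E) (V : AddSubgroup E) : In (rs U V) V := sorry

theorem in_rs' {U : Fam E} {V : AddSubgroup E} (W : AddSubgroup E) (hU : In U V) : In (rs U W) V := sorry

theorem in_sl {U : Fam E} {V : AddSubgroup E} (hU : In U V) (w : U.Om) : In (sl U w) V := sorry

theorem spr_mono [Finite E] {U : Fam E} {V : AddSubgroup E} {s s' : ℝ} (h : Spr U V s) (hs : s ≤ s') : Spr U V s' := sorry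

theorem spr_add [Finite E] {U W : Fam E} {V : AddSubgroup E} {s : ℝ} (h : Spr U V s) : Spr (add U W) V s := sorry

/-- chain rule for the restriction -/
theorem hh_rs [Finite E] (U : Fam E) {K V : AddSubgroup E} (h : K ≤ V) :
    hh (rs U V) K = hh U K - hh U V + ls V := sorry

theorem H_rs [Finite E] (U : Fam E) (V : AddSubgroup E) : H (rs U V) = H U - hh U V + ls V := sorry

theorem H_fold (U W : Fam E) : H (fold U W) = H U + H W - H (add U W) := sorry

/-- threshold subgroup -/
theorem threshold [Finite E] (U : Fam E) (V : AddSubgroup E) (c : ℝ) : ∃ W : AddSubgroup E, W ≤ V ∧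
    c * (ls V - ls W) ≤ hh U V - hh U W ∧ Spr (rs U W) W c ∧
    ∀ K : AddSubgroup E, K ≤ V → hh U W - c * ls W ≤ hh U K - c * ls K := sorry

/-! ### slices -/

/-- averages over slices -/
theorem sum_sl (U : Fam E) : ∑ w, U.m w * H (sl U w) = H U := sorry

theorem sum_sl_add (X U : Fam E) : ∑ w, U.m w * H (add X (sl U w)) = H (add X U) := sorry

/-- the self sum with the same label dominates -/
theorem H_le_SD (U : Fam E) : H U ≤ SD U := sorry

theorem finer_add_rs_rs (U W : Fam E) (V : AddSubgroup E) : H (add (rs U V) (rs W V)) ≤ H (rs (add U W) V) := sorry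

end

end Epp
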