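import Pool.Agent.H9.F2.Fam

/-! (E''): statements and constructions used in all the modules of `H68/EPP`.
Paper proof: /team-store/H68_Epp.md.  Families `Fam E`, subgroups `V ≤ E` (= ambient space), `ls V = log |V|`.
`D_V(U) = ls V - H U`, `D(U_G) = ls V - hh U W` (`W = G^perp`), `dim G = ls V - ls W`. -/

set_option autoImplicit false

namespace Epp

open H2INV F2 Finset

noncomputable section

/-- self sums of `c`-spread families -/
def SB (c th : ℝ) : Prop :=
  ∀ (E : Type) [AddCommGroup E] [Finite E] [Two E] (V : AddSubgroup E) (U : Fam E),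
    In U V → Spr U V c → ls V - H (add U U) ≤ th * (ls V - H U)

/-- sums with `y`-spread families -/
def LB (y k : ℝ) : Prop :=
  ∀ (E : Type) [AddCommGroup E] [Finite E] [Two E] (V : AddSubgroup E) (X Y : Fam E),
    In X V → In Y V → Spr Y V y → ls V - H (add X Y) ≤ k * (ls V - H X)

/-- Claim M -/
def CM (A : ℝ) : Prop :=
  ∀ (E : Type) [AddCommGroup E] [Finite E] [Two E] (V : AddSubgroup E) (X Y : Fam E) (s : ℝ),
    In X V → In Y V → 0 < s → Spr X V s →
      ls V - H (add X Y) ≤ A * s * Real.sqrt (ls V * (ls V - H Y))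

/-- `(Y₁ | Y₁ + Y₂, J)` for two independent copies with the SAME label `J` -/
def dbl {E : Type} [AddCommGroup E] (Y : Fam E) : Fam E where
  Om := Y.Om × Y.Om
  fin := inferInstance
  m := cprod Y.m Y.J
  hm := isPM_cprod Y.hm Y.J
  X := fun w => Y.X w.1
  St := E × Y.St
  J := fun w => (Y.X w.1 + Y.X w.2, Y.J w.1)

/-- the family modulo `K` -/
def quo {E : Type} [AddCommGroup E] (U : Fam E) (K : AddSubgroup E) : Fam (E ⧸ K) where
  Om := U.Om
  fin := inferInstance
  m := U.m
  hm := U.hm
  X := fun w => q K (U.X w)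
  St := U.St
  J := U.J

/-- the block `(U_{G'} | U_G)`, `V = G^perp ≥ K = G'^perp`: class modulo `V` revealed, taken modulo `K`;
lives in `V.map (QuotientAddGroup.mk' K)` -/
def bk {E : Type} [AddCommGroup E] (U : Fam E) (V K : AddSubgroup E) : Fam (E ⧸ K) :=
  quo (rs U V) K

/-- the ambient subgroup of a block -/
def bv {E : Type} [AddCommGroup E] (V K : AddSubgroup E) : AddSubgroup (E ⧸ K) :=
  V.map (QuotientAddGroup.mk' K)

instance {E : Type} [AddCommGroup E] [Two E] (K : AddSubgroup E) : Two (E ⧸ K) := ⟨fun x => by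
  obtain ⟨y, rfl⟩ := QuotientAddGroup.mk_surjective x
  rw [← QuotientAddGroup.mk_add, Two.two y, QuotientAddGroup.mk_zero]⟩

instance {E : Type} [AddCommGroup E] [Finite E] (K : AddSubgroup E) : Finite (E ⧸ K) :=
  Quotient.finite _

end

end Epp
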